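import Pool.Agent.V1157.CB.Defs
import Pool.Agent.V1157.KF.Height

/-!
# Correspondences which factor through the varieties of a given class
-/

open CategoryTheory AlgebraicGeometry

universe u v w

namespace Pool.Agent.V1157.CB

open Pool.Agent.H914 Pool.Agent.H914.VarClass Pool.Agent.H914.VarClass.Obj Pool.Agent.W492.BB
  Pool.Agent.W550.Corr Pool.Agent.TH133 Pool.Agent.Y148.BB Pool.Agent.V1157.KF
open Pool.Agent.V1157.RC (graph_mem push_pull_of)

set_option linter.unusedSectionVars false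

variable {k : Type u} [Field k] {𝒱 : VarClass k} {C : TheoryData.{u, v, 0} 𝒱 ℚ}
  [hC : IsChowProj C] {K : Type w} [Field K] {H : WeilTheoryData.{u, v, w} C K}
  [hH : IsWeilProj H] {S V X Y : 𝒱.Obj} {P : 𝒱.Obj → Prop} {n m : ℕ}

include hC

lemma hom_act [hH : IsWeilProj H] {Γ : C.A (Y.prod X)} {y : C.A Y} (hY : Y.dim = n)
    (hΓ : C.Deg n Γ) (hy : HomTriv H m y) : HomTriv H m (C.act Γ y) := by
  constructor
  · have h2 := act_mem' C (e := 0) (Γ := Γ) (gr_congr (by rw [hY]; ring) hΓ) hy.1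
    exact gr_congr (by ring) h2
  · rw [TheoryData.act_apply, H.cl_push, map_mul, H.cl_pull, hy.2, map_zero, mul_zero, map_zero]

lemma factors_mt (hS : S.dim = n) (hPS : P S) (p q : V ⟶ S) :
    FactorsThrough C P n V (mt C p q) := by
  refine ⟨S, C.graph p, C.cograph q, hPS, hS, ?_, ?_, rfl⟩
  · exact gr_congr (by rw [hS]) (graph_mem p)
  · exact gr_congr (by rw [hS]) (cograph_mem q)

/-- **Homologically trivial cycles on the varieties of the class `P`.** -/
theorem bloch_main [hH : IsWeilProj H]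
    (hB : ∀ (S : 𝒱.Obj) (N : ℕ), P S → S.dim = n → HasPower C n N S) :
    List.TFAE [NoTrivialCycles H P n m, ∃ D, AtMost H P n m D, Commuting H P n m,
      ∃ (d : ℕ) (c : Equiv.Perm (Fin d) → ℚ), c ≠ 0 ∧ Identity H P n m d c] := by
  tfae_have 1 → 2 := by
    intro h
    refine ⟨0, fun X x hX hx => ⟨fun _ => 1, ?_, ?_⟩⟩
    · intro h1
      exact one_ne_zero (congrFun h1 0)
    · apply Finset.sum_eq_zero
      intro i _
      obtain ⟨Y, Γ, y, hP, hY, hΓ, hy, h1⟩ := hx i
      rw [h1, h Y y hP hY hy, C.act_map_zero, smul_zero]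
  tfae_have 2 → 1 := by
    rintro ⟨D, hD⟩ Y y hP hY hy
    obtain ⟨V, p, a, c, κ, h⟩ := exists_pw hY (hB Y (D + 1) hP hY)
    obtain ⟨b, hb, hb2⟩ := hD V (fun i => C.pull (p i) y) h.dimV (fun i =>
      ⟨Y, C.cograph (p i), y, hP, hY, gr_congr (by rw [hY]) (cograph_mem (p i)), hy,
        (C.act_cograph (p i) y).symm⟩)
    obtain ⟨i, hi⟩ : ∃ i, b i ≠ 0 := by
      by_contra hcon
      push Not at hcon
      exact hb (funext hcon)
    have h1 := congrArg (C.push (p i)) hb2
    rw [map_sum, map_zero, Finset.sum_eq_single i, map_smul, push_pull_of (h.pp i i.2),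
      smul_smul] at h1
    · rw [← one_smul ℚ y, ← inv_mul_cancel₀ (mul_ne_zero hi h.hκ), mul_smul, h1, smul_zero]
    · intro j _ hj
      rw [map_smul, h.push_pull_ne H j.2 i.2 (fun e => hj (Fin.ext e)) hy, smul_zero]
    · intro h0
      exact absurd (Finset.mem_univ i) h0
  tfae_have 1 → 3 := by
    rintro h X A B x hX ⟨Y, Γ, Δ, hP, hY, hΓ, hΔ, rfl⟩ ⟨Y', Γ', Δ', hP', hY', hΓ', hΔ', rfl⟩ hx
    have h1 : C.act Γ x = 0 := h Y _ hP hY (hom_act hX hΓ hx)
    have h2 : C.act Γ' x = 0 := h Y' _ hP' hY' (hom_act hX hΓ' hx)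
    rw [C.act_comp, C.act_comp, C.act_comp, C.act_comp, h1, h2]
    simp only [C.act_map_zero]
  tfae_have 3 → 4 := by
    intro h
    refine ⟨2, fun σ => if σ = 1 then 1 else -1, ?_, ?_⟩
    · intro h1
      have := congrFun h1 1
      simp at this
    · intro X W x hX hW hx
      have h1 := h X (W 1) (W 0) x hX (hW 1) (hW 0) hx
      have h2 : (Finset.univ : Finset (Equiv.Perm (Fin 2))) = {1, Equiv.swap 0 1} := by decide
      have h3 : (1 : Equiv.Perm (Fin 2)) ≠ Equiv.swap 0 1 := by decide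
      rw [h2, Finset.sum_pair h3]
      beta_reduce
      rw [if_pos rfl, if_neg h3.symm]
      simp only [List.ofFn_succ, List.ofFn_zero, Equiv.Perm.one_apply, one_smul, neg_smul,
        Equiv.swap_apply_left, Fin.succ_zero_eq_one, Equiv.swap_apply_right, ops, List.foldl_cons,
        List.foldl_nil, ← sub_eq_add_neg]
      exact sub_eq_zero.2 h1
  tfae_have 4 → 1 := by
    rintro ⟨d, c, hc, hI⟩ S x hPS hS hx
    obtain ⟨V, p, a, b, κ, h⟩ := exists_pw hS (hB S (d + 1) hPS hS)
    obtain ⟨σ, hσ⟩ : ∃ σ, c σ ≠ 0 := by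
      by_contra hcon
      push Not at hcon
      exact hc (funext hcon)
    have hx0 : HomTriv H m (C.pull (p 0) x) := hx.pull
    have h1 := hI V (fun i => mt C (p (σ⁻¹ i)) (p (σ⁻¹ i + 1))) (C.pull (p 0) x) h.dimV
      (fun i => factors_mt hS hPS _ _) hx0
    have e0 : ∀ τ : Equiv.Perm (Fin d), (List.ofFn fun i => mt C (p (σ⁻¹ (τ i)))
        (p (σ⁻¹ (τ i) + 1))) = (List.ofFn fun i => (σ⁻¹ * τ) i).map fun i : Fin d =>
          mt C (p i) (p (i + 1)) := by
      intro τ
      rw [List.map_ofFn]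
      rfl
    rw [Finset.sum_eq_single σ] at h1
    · rw [e0, inv_mul_cancel, h.ops_stair x d 0 (by omega) _ (by simp) (by intro q hq; simp),
        smul_smul] at h1
      have h2 : c σ * κ ^ d ≠ 0 := mul_ne_zero hσ (pow_ne_zero _ h.hκ)
      have h3 : C.pull (p d) x = 0 := by
        rw [← one_smul ℚ (C.pull (p d) x), ← inv_mul_cancel₀ h2, mul_smul, h1, smul_zero]
      have h4 := push_pull_of (h.pp d (by omega)) x
      rw [h3, map_zero] at h4
      rw [← one_smul ℚ x, ← inv_mul_cancel₀ h.hκ, mul_smul, ← h4, smul_zero]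
    · intro τ _ hτ
      rw [e0, h.ops_ne H hx _ 0 (by omega), smul_zero]
      intro hcon
      apply hτ
      have h3 : σ⁻¹ * τ = 1 := by
        ext i
        have := hcon i (by simp)
        simpa using this
      rw [inv_mul_eq_one] at h3
      exact h3.symm
    · intro h0
      exact absurd (Finset.mem_univ σ) h0
  tfae_finish

end Pool.Agent.V1157.CB
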