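import Pool.Agent.V1157.KF.Defs
import Pool.Agent.W492.BB.Calc

/-!
# Correspondences which factor through the varieties of a given class: definitions
-/

open CategoryTheory AlgebraicGeometry

universe u v w

namespace Pool.Agent.V1157.CB

open Pool.Agent.H914 Pool.Agent.H914.VarClass Pool.Agent.H914.VarClass.Obj Pool.Agent.W492.BB
  Pool.Agent.V1157.KF

variable {k : Type u} [Field k] {𝒱 : VarClass k} {C : TheoryData.{u, v, 0} 𝒱 ℚ} {K : Type w}
  [Field K] (H : WeilTheoryData.{u, v, w} C K) (P : 𝒱.Obj → Prop) (n m : ℕ)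

/-- The varieties `Y` of dimension `n` in the class `P` have no homologically trivial cycles of
codimension `m`. -/
def NoTrivialCycles : Prop := ∀ (Y : 𝒱.Obj) (y : C.A Y), P Y → Y.dim = n → HomTriv H m y → y = 0

/-- The cycle `x` on `X` is the image `Γ_* y` of a homologically trivial cycle `y` of codimension
`m` on a variety `Y` of dimension `n` in the class `P` under a correspondence `Γ` of degree
zero. -/
def ComesFrom (X : 𝒱.Obj) (x : C.A X) : Prop :=
  ∃ (Y : 𝒱.Obj) (Γ : C.A (Y.prod X)) (y : C.A Y), P Y ∧ Y.dim = n ∧ C.Deg n Γ ∧ HomTriv H m y ∧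
    x = C.act Γ y

/-- On every variety of dimension `n`, of any `D + 1` of these cycles a non-trivial rational linear
combination is zero. -/
def AtMost (D : ℕ) : Prop := ∀ (X : 𝒱.Obj) (x : Fin (D + 1) → C.A X), X.dim = n →
  (∀ i, ComesFrom H P n m X (x i)) → ∃ c : Fin (D + 1) → ℚ, c ≠ 0 ∧ ∑ i, c i • x i = 0

/-- The self-correspondence `A` of `X` is a composition `X → Y → X` of correspondences of degree
zero, `Y` a variety of dimension `n` in the class `P`. -/
def FactorsThrough (C : TheoryData.{u, v, 0} 𝒱 ℚ) (P : 𝒱.Obj → Prop) (n : ℕ) (X : 𝒱.Obj)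
    (A : C.A (X.prod X)) : Prop :=
  ∃ (Y : 𝒱.Obj) (Γ : C.A (X.prod Y)) (Δ : C.A (Y.prod X)), P Y ∧ Y.dim = n ∧ C.Deg n Γ ∧
    C.Deg n Δ ∧ A = C.comp Γ Δ

/-- Any two self-correspondences of a variety of dimension `n` which factor through varieties in
the class `P` commute on the homologically trivial cycles of codimension `m`. -/
def Commuting : Prop := ∀ (X : 𝒱.Obj) (A B : C.A (X.prod X)) (x : C.A X), X.dim = n →
  FactorsThrough C P n X A → FactorsThrough C P n X B → HomTriv H m x →
    C.act A (C.act B x) = C.act B (C.act A x)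

/-- Any `d` self-correspondences of a variety of dimension `n` which factor through varieties in
the class `P` satisfy the multilinear polynomial identity
`∑ c(σ) W_{σ(1)} W_{σ(2)} ⋯ W_{σ(d)} = 0` on the homologically trivial cycles of codimension
`m`. -/
def Identity (d : ℕ) (c : Equiv.Perm (Fin d) → ℚ) : Prop :=
  ∀ (X : 𝒱.Obj) (W : Fin d → C.A (X.prod X)) (x : C.A X), X.dim = n →
    (∀ i, FactorsThrough C P n X (W i)) → HomTriv H m x →
      ∑ σ, c σ • ops C (List.ofFn fun i => W (σ i)) x = 0

end Pool.Agent.V1157.CB
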